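import Pool.Agent.K3h94.DJ.Count

/-!
# Disjoint pairs of edges in geometric graphs of given average degree

A geometric graph with `n` vertices, `e` edges and `2 e ≥ n` has at least `(n / 2) * binom (2 e / n) 3`
pairs of disjoint edges. This is the positive answer to Q1 of MP_390221_co. No condition on the
position of the vertices is needed, besides the general position.

The proof: for an edge `u v` let `R(u, v)` be the number of the edges at `u` which lie on the right
hand side of the ray from `u` to `v`. An edge `u x` on the right of the ray `u v` and an edge `v y` on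
the right of the ray `v u` are disjoint, and a disjoint pair of edges arises in this way from at most
one edge `u v`. Hence the number of disjoint pairs is at least `∑ R(u, v) R(v, u)`, the sum over the
edges `u v`. The sum of the numbers `R(u, v)` over any `a` edges `u v` at a vertex `u` is at least
`binom a 2`, whether `u` is pointed or not, because of two edges at `u` one is on the right of the
other. Now `R(u, v) R(v, u)` is at least `∑ (min (R(u, v)) k + min (R(v, u)) k) - binom (D + 1) 2`,
the sum over `1 ≤ k ≤ D`, and the sum of `min (R(u, v)) k` over the edges at `u` is at least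
`k deg u - binom (k + 1) 2`. This gives the second part of the theorem, the first follows with
`D + 1 = ⌊2 e / n⌋`.
-/

set_option autoImplicit false

namespace Pool.Agent.Results.MP_390221_co.DisjointPairs

open Finset

/-- A geometric graph: a finite set `V` of points in the plane, no three of them collinear, and a
graph on this set. The edges are drawn as straight line segments, see `segmentOf`. -/
structure GeometricGraph where
  /-- The vertices. -/
  V : Finset (ℝ × ℝ)
  general : ∀ a ∈ V, ∀ b ∈ V, ∀ c ∈ V, a ≠ b → a ≠ c → b ≠ c →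
    ¬ Collinear ℝ ({a, b, c} : Set (ℝ × ℝ))
  /-- The graph on these vertices. -/
  graph : SimpleGraph V

namespace GeometricGraph

variable (G : GeometricGraph)

/-- The number of vertices. -/
def n : ℕ := G.V.card

/-- The number of edges. -/
noncomputable def e : ℕ := G.graph.edgeSet.ncard

/-- The average degree `2 e / n`. -/
noncomputable def d : ℝ := 2 * G.e / G.n

/-- The closed segment spanned by the two ends of an edge. -/
def segmentOf (a : Sym2 G.V) : Set (ℝ × ℝ) := convexHull ℝ {x | ∃ v ∈ a, (v : ℝ × ℝ) = x}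

/-- The set of the unordered pairs of disjoint edges. -/
def DJ : Set (Sym2 (Sym2 G.V)) :=
  {P | ∃ a ∈ G.graph.edgeSet, ∃ b ∈ G.graph.edgeSet,
    Disjoint (G.segmentOf a) (G.segmentOf b) ∧ P = s(a, b)}

end GeometricGraph

open GeometricGraph

theorem segmentOf_mk (G : GeometricGraph) (u v : G.V) :
    G.segmentOf s(u, v) = segment ℝ (u : ℝ × ℝ) v := by
  unfold segmentOf
  rw [← convexHull_pair]
  congr 1
  ext x
  simp only [Set.mem_ofPred_eq, Sym2.mem_iff, Set.mem_insert_iff, Set.mem_singleton_iff]
  constructor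
  · rintro ⟨w, rfl | rfl, rfl⟩
    · exact Or.inl rfl
    · exact Or.inr rfl
  · rintro (rfl | rfl)
    · exact ⟨u, Or.inl rfl, rfl⟩
    · exact ⟨v, Or.inr rfl, rfl⟩

theorem strong (G : GeometricGraph) (D : ℕ) :
    ((D : ℤ) * (D + 1)) * (3 * G.e - (D + 2) * G.n) ≤ 6 * G.DJ.ncard := by
  classical
  have hfin : G.DJ.Finite := Set.toFinite _
  have hgen : ∀ u v w : G.V, u ≠ v → u ≠ w → v ≠ w →
      Pool.Agent.K3h94.DJ.ori (u : ℝ × ℝ) v w ≠ 0 := by
    intro u v w huv huw hvw h0
    have huv' : (u : ℝ × ℝ) ≠ v := fun h => huv (Subtype.ext h)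
    exact G.general u u.2 v v.2 w w.2 huv' (fun h => huw (Subtype.ext h))
      (fun h => hvw (Subtype.ext h)) (Pool.Agent.K3h94.DJ.collinear_of_ori huv' h0)
  have hE : ∑ u, (Pool.Agent.K3h94.DJ.nb G.graph u).card = 2 * G.e := by
    have h1 := G.graph.sum_degrees_eq_twice_card_edges
    have h2 : G.graph.edgeFinset.card = G.e := by
      unfold GeometricGraph.e
      rw [Set.ncard_eq_toFinset_card', SimpleGraph.edgeFinset]
    rw [← h2, ← h1]
    refine Finset.sum_congr rfl fun u _ => ?_
    rw [← SimpleGraph.card_neighborFinset_eq_degree]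
    congr 1
    ext v
    simp [Pool.Agent.K3h94.DJ.nb]
  have h := Pool.Agent.K3h94.DJ.main G.graph (fun v : G.V => (v : ℝ × ℝ)) hgen hfin.toFinset
    (by
      intro u v x y h1 h2 h3
      rw [Set.Finite.mem_toFinset]
      refine ⟨s(u, x), h1, s(v, y), h2, ?_, rfl⟩
      rw [segmentOf_mk, segmentOf_mk]
      exact h3) G.e hE D
  rw [← Set.ncard_eq_toFinset_card _ hfin] at h
  have h5 : (Fintype.card G.V : ℤ) = G.n := by
    unfold GeometricGraph.n
    rw [Fintype.card_coe]
  rw [h5] at h
  exact h

/-- Let `G` be a geometric graph with `n` vertices, `e` edges and average degree `d = 2 e / n`.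

1. If `2 e ≥ n` then the number of pairs of disjoint edges is at least
   `(n / 2) * d (d - 1) (d - 2) / 6`.
2. For every natural number `D` (and all `n` and `e`) it is at least
   `D (D + 1) (3 e - (D + 2) n) / 6`. -/
theorem result (G : GeometricGraph) :
    (G.n ≤ 2 * G.e →
      (G.n : ℝ) / 2 * (G.d * (G.d - 1) * (G.d - 2) / 6) ≤ G.DJ.ncard) ∧
    ∀ D : ℕ, (D : ℝ) * (D + 1) * (3 * G.e - (D + 2) * G.n) / 6 ≤ G.DJ.ncard := by
  have hs : ∀ D : ℕ, (D : ℝ) * (D + 1) * (3 * G.e - (D + 2) * G.n) / 6 ≤ G.DJ.ncard := by
    intro D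
    have h := strong G D
    have h' : (((D : ℤ) * (D + 1)) * (3 * G.e - (D + 2) * G.n) : ℝ) ≤ 6 * G.DJ.ncard := by
      exact_mod_cast h
    push_cast at h'
    linarith
  refine ⟨fun hn => ?_, hs⟩
  rcases Nat.eq_zero_or_pos G.n with h0 | h0
  · rw [h0]
    simp
  · have hn0 : (0 : ℝ) < G.n := by exact_mod_cast h0
    have hd : G.d * G.n = 2 * G.e := by
      unfold GeometricGraph.d
      field_simp
    have hn' : (G.n : ℝ) ≤ 2 * G.e := by exact_mod_cast hn
    have hd1 : 1 ≤ G.d := by
      by_contra hcon
      push Not at hcon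
      nlinarith
    obtain ⟨D, hD⟩ : ∃ D : ℕ, ⌊G.d⌋₊ = D + 1 := by
      have : 1 ≤ ⌊G.d⌋₊ := Nat.le_floor (by simpa using hd1)
      exact ⟨⌊G.d⌋₊ - 1, by omega⟩
    have h1 : (D : ℝ) + 1 ≤ G.d := by
      have := Nat.floor_le (show 0 ≤ G.d by linarith)
      rw [hD] at this
      push_cast at this
      exact this
    have h2 : G.d < (D : ℝ) + 1 + 1 := by
      have := Nat.lt_floor_add_one G.d
      rw [hD] at this
      push_cast at this
      exact this
    refine le_trans ?_ (hs D)
    have h3 : (D : ℝ) * (D + 1) * (3 * G.e - (D + 2) * G.n) / 6 =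
        G.n / 12 * (D * (D + 1) * (3 * G.d - 2 * D - 4)) := by
      have : (G.e : ℝ) = G.d * G.n / 2 := by linarith
      rw [this]
      ring
    rw [h3]
    have h4 : (G.n : ℝ) / 2 * (G.d * (G.d - 1) * (G.d - 2) / 6) =
        G.n / 12 * (G.d * (G.d - 1) * (G.d - 2)) := by ring
    rw [h4]
    refine mul_le_mul_of_nonneg_left ?_ (by positivity)
    set t := G.d - (D + 1) with ht
    have h5 : G.d = D + 1 + t := by rw [ht]; ring
    have ht0 : 0 ≤ t := by linarith
    have ht1 : t < 1 := by linarith
    have h6 : (D : ℝ) * (D + 1) * (3 * G.d - 2 * D - 4) - G.d * (G.d - 1) * (G.d - 2) =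
        t * (3 * D * (1 - t) + (1 - t) * (1 + t)) := by
      rw [h5]
      ring
    have h7 : 0 ≤ t * (3 * D * (1 - t) + (1 - t) * (1 + t)) := by
      have a1 : 0 ≤ 1 - t := by linarith
      positivity
    linarith

end Pool.Agent.Results.MP_390221_co.DisjointPairs
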